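import Pool.Agent.J6H36.LF.Stm

/-!
# LF-GALF: a finite Galois extension with a basis algebraic over the perfect subfield
-/

set_option autoImplicit false

universe u

namespace Pool.Agent.J6H28.LF

open Polynomial

theorem t_GALF : Pool.Agent.J6H36.LF.S_GALF.{u} := by
  intro P _ _ K Ω _ _ _ _ _ _ _ S hS
  classical
  set q : P[X] := ∏ z ∈ S, minpoly P z with hq
  have hq0 : q ≠ 0 := Finset.prod_ne_zero_iff.2 fun z hz => minpoly.ne_zero (hS z hz).isIntegral
  set p : K[X] := q.map (algebraMap P K) with hp
  have hp0 : p ≠ 0 := (Polynomial.map_ne_zero_iff (algebraMap P K).injective).2 hq0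
  set R : Set Ω := p.rootSet Ω with hR
  have hRalg : ∀ x ∈ R, IsAlgebraic P x := by
    intro x hx
    refine ⟨q, hq0, ?_⟩
    have h1 := aeval_eq_zero_of_mem_rootSet hx
    rwa [hp, aeval_map_algebraMap] at h1
  have hSR : ∀ z ∈ S, z ∈ R := by
    intro z hz
    rw [hR, mem_rootSet]
    refine ⟨hp0, ?_⟩
    rw [hp, aeval_map_algebraMap, hq, map_prod]
    exact Finset.prod_eq_zero hz (minpoly.aeval _ _)
  set A : IntermediateField K Ω := IntermediateField.adjoin K R with hA
  have hsplit : p.IsSplittingField K A :=
    IntermediateField.adjoin_rootSet_isSplittingField (IsAlgClosed.splits _)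
  have hfin : FiniteDimensional K A := IsSplittingField.finiteDimensional A p
  have hnor : Normal K A := Normal.of_isSplittingField p
  have hsep : Algebra.IsSeparable K A := by
    rw [hA, IntermediateField.isSeparable_adjoin_iff_isSeparable]
    intro x hx
    have h1 : IsSeparable P x := (PerfectField.separable_of_irreducible
      (minpoly.irreducible (hRalg x hx).isIntegral))
    exact h1.tower_top K
  have hgal : IsGalois K A := ⟨⟩
  -- the algebraic elements span
  set W : Set A := {x | IsAlgebraic P (x : Ω)} with hW
  have hspan : Submodule.span K W = ⊤ := by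
    rw [eq_top_iff]
    intro x _
    have h1 : (x : Ω) ∈ Algebra.adjoin K R := by
      have h2 : A.toSubalgebra = Algebra.adjoin K R :=
        IntermediateField.adjoin_toSubalgebra_of_isAlgebraic (fun y hy =>
          (hRalg y hy).tower_top K)
      rw [← h2]
      exact x.2
    have h3 : (x : Ω) ∈ Submodule.span K (Submonoid.closure R : Set Ω) := by
      rw [← Algebra.adjoin_eq_span]
      exact h1
    have h4 : Submodule.span K (Submonoid.closure R : Set Ω) ≤
        (Submodule.span K W).map A.val.toLinearMap := by
      rw [Submodule.span_le]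
      intro r hr
      have hrA : r ∈ A := by
        have h5 : Submonoid.closure R ≤ A.toSubalgebra.toSubmonoid := by
          rw [Submonoid.closure_le]
          intro y hy
          exact IntermediateField.subset_adjoin K R hy
        exact h5 hr
      have hralg : IsAlgebraic P r := by
        have h5 : Submonoid.closure R ≤ (integralClosure P Ω).toSubmonoid := by
          rw [Submonoid.closure_le]
          intro y hy
          exact (hRalg y hy).isIntegral
        exact (h5 hr : IsIntegral P r).isAlgebraic
      exact ⟨⟨r, hrA⟩, Submodule.subset_span hralg, rfl⟩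
    obtain ⟨w, hw, hwx⟩ := h4 h3
    have : w = x := Subtype.ext hwx
    rwa [this] at hw
  obtain ⟨B, hBW, hB1, hB2⟩ := exists_linearIndependent K W
  have hBtop : ⊤ ≤ Submodule.span K (Set.range ((↑) : B → A)) := by
    rw [Subtype.range_coe, hB1, hspan]
  let e0 : Module.Basis B K A := Module.Basis.mk hB2 hBtop
  have hBf : Finite B := Module.Finite.finite_basis e0
  refine ⟨A, Nat.card B, e0.reindex (Finite.equivFin B), hfin, hgal, ?_, ?_⟩
  · intro z hz
    exact IntermediateField.subset_adjoin K R (hSR z hz)
  · intro l
    rw [Module.Basis.reindex_apply, Module.Basis.mk_apply]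
    exact hBW ((Finite.equivFin B).symm l).2

end Pool.Agent.J6H28.LF
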